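import Pool.Agent.H72.PSV.T2
import Pool.Agent.H72.BF.AARN

/-!
# RPO: a dependent tuple has an entry which is algebraic over the previous ones (MP_3cf473_nt)
-/

set_option autoImplicit false

namespace Pool.Agent.H48.PSV

open Pool.Agent.H72.PSV Pool.Agent.H72.BF

theorem le_of_coeff_ne (R : Type) [CommRing R] (N : ℕ) (P : MvPolynomial (Fin (N + 1)) R) (j : ℕ)
    (hj : (lastEq R N P).coeff j ≠ 0) : j ≤ P.totalDegree := by
  have h1 := MvPolynomial.totalDegree_coeff_finSuccEquiv_add_le
    (MvPolynomial.rename (finRotate (N + 1)) P) j hj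
  have h3 := MvPolynomial.totalDegree_rename_le (finRotate (N + 1)) P
  omega

section

variable {K F : Type} [Field K] [Field F] [Algebra K F]

/-- evaluation -/
theorem lastEq_eval (N : ℕ) (x : Fin N → F) (y : F) (P : MvPolynomial (Fin (N + 1)) K) :
    MvPolynomial.aeval (Fin.snoc x y : Fin (N + 1) → F) P =
      ((lastEq K N P).map (MvPolynomial.aeval x : MvPolynomial (Fin N) K →ₐ[K] F).toRingHom).eval
        y := by
  induction P using MvPolynomial.induction_on with
  | C a =>
    rw [lastEq_C, Polynomial.map_C, Polynomial.eval_C, MvPolynomial.aeval_C]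
    exact (MvPolynomial.aeval_C x a).symm
  | add p q hp hq => rw [map_add, map_add, Polynomial.map_add, Polynomial.eval_add, hp, hq]
  | mul_X p i hp =>
    rw [map_mul, map_mul, Polynomial.map_mul, Polynomial.eval_mul, hp, MvPolynomial.aeval_X]
    congr 1
    refine Fin.lastCases ?_ (fun i => ?_) i
    · rw [Fin.snoc_last, lastEq_last, Polynomial.map_X, Polynomial.eval_X]
    · rw [Fin.snoc_castSucc, lastEq_castSucc, Polynomial.map_C, Polynomial.eval_C]
      exact (MvPolynomial.aeval_X x i).symm

theorem lastEq_aeval_aux' {N n : ℕ} (g : Fin (N + 1) → MvPolynomial (Fin (n + 1)) F)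
    (g' : Fin N → MvPolynomial (Fin n) F) (h1 : lastEq F n (g (Fin.last N)) = Polynomial.X)
    (h2 : ∀ i : Fin N, lastEq F n (g i.castSucc) = Polynomial.C (g' i))
    (P : MvPolynomial (Fin (N + 1)) K) :
    lastEq F n (MvPolynomial.aeval g P) =
      (lastEq K N P).map (MvPolynomial.aeval g' :
            MvPolynomial (Fin N) K →ₐ[K] MvPolynomial (Fin n) F).toRingHom := by
  induction P using MvPolynomial.induction_on with
  | C a =>
    rw [lastEq_C, Polynomial.map_C, MvPolynomial.aeval_C]
    have e1 : algebraMap K (MvPolynomial (Fin (n + 1)) F) a = MvPolynomial.C (algebraMap K F a) :=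
      rfl
    rw [e1, lastEq_C]
    congr 1
    exact (MvPolynomial.aeval_C g' a).symm
  | add p q hp hq => rw [map_add, map_add, map_add, Polynomial.map_add, hp, hq]
  | mul_X p i hp =>
    have key : lastEq F n (g i) = (lastEq K N (MvPolynomial.X i)).map
        (MvPolynomial.aeval g' :
            MvPolynomial (Fin N) K →ₐ[K] MvPolynomial (Fin n) F).toRingHom := by
      refine Fin.lastCases ?_ (fun i => ?_) i
      · rw [lastEq_last, Polynomial.map_X, h1]
      · rw [lastEq_castSucc, Polynomial.map_C, h2]
        congr 1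
        exact (MvPolynomial.aeval_X g' i).symm
    rw [map_mul, map_mul, map_mul, Polynomial.map_mul, hp, MvPolynomial.aeval_X, key]

theorem lastEq_aeval' {r n : ℕ} (t : Fin r → F) (P : MvPolynomial (Fin (r + n + 1)) K) :
    lastEq F n (MvPolynomial.aeval (Fin.append (fun i => MvPolynomial.C (t i)) MvPolynomial.X :
          Fin (r + (n + 1)) → MvPolynomial (Fin (n + 1)) F) P) =
      (lastEq K (r + n) P).map (MvPolynomial.aeval
        (Fin.append (fun i => MvPolynomial.C (t i)) MvPolynomial.X :
          Fin (r + n) → MvPolynomial (Fin n) F) :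
            MvPolynomial (Fin (r + n)) K →ₐ[K] MvPolynomial (Fin n) F).toRingHom := by
  refine lastEq_aeval_aux' _ _ ?_ ?_ P
  · have : Fin.last (r + n) = Fin.natAdd r (Fin.last n) := by ext; simp
    rw [this, Fin.append_right, lastEq_last]
  · intro i
    refine Fin.addCases (fun i => ?_) (fun i => ?_) i
    · have : (Fin.castAdd n i).castSucc = Fin.castAdd (n + 1) i := by ext; simp
      rw [this, Fin.append_left, lastEq_C, Fin.append_left]
    · have : (Fin.natAdd r i).castSucc = Fin.natAdd r i.castSucc := by ext; simp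
      rw [this, Fin.append_right, lastEq_castSucc, Fin.append_right]

/-- values of polynomials in elements of degree one -/
theorem aeval_mem_filt {ρ c : ℕ} (Φ : Filt K F ρ c) {N : ℕ} (x : Fin N → F)
    (hx : ∀ i, x i ∈ Φ.G 1) (d : ℕ) (Q : MvPolynomial (Fin N) K) (hQ : Q.totalDegree ≤ d) :
    MvPolynomial.aeval x Q ∈ Φ.G (d + 1) := by
  have hpow : ∀ (n : ℕ), 1 ≤ n → ∀ z ∈ Φ.G n, ∀ i (e : ℕ), z * x i ^ e ∈ Φ.G (n + e) := by
    intro n hn z hz i e
    induction e with
    | zero => simpa using hz
    | succ e ih =>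
      rw [pow_succ, ← mul_assoc, ← add_assoc]
      exact Φ.mul (n + e) 1 (by omega) le_rfl _ ih _ (hx i)
  have hprod : ∀ (m : Fin N →₀ ℕ) (s : Finset (Fin N)),
      ∏ i ∈ s, x i ^ m i ∈ Φ.G (1 + ∑ i ∈ s, m i) := by
    classical
    intro m s
    induction s using Finset.induction_on with
    | empty => simpa using Φ.one
    | insert a s ha ih =>
      rw [Finset.prod_insert ha, Finset.sum_insert ha, mul_comm,
        show 1 + (m a + ∑ i ∈ s, m i) = (1 + ∑ i ∈ s, m i) + m a by ring]
      exact hpow _ (by omega) _ ih a (m a)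
  rw [MvPolynomial.aeval_def, MvPolynomial.eval₂_eq]
  refine Submodule.sum_mem _ fun m hm => ?_
  have h1 : (m.sum fun _ e => e) ≤ Q.totalDegree := MvPolynomial.le_totalDegree hm
  have h2 : ∑ i ∈ m.support, m i ≤ Q.totalDegree := h1
  have h3 := Φ.mono (1 + ∑ i ∈ m.support, m i) (d + 1) (by omega) (by omega) (hprod m m.support)
  have h4 := (Φ.G (d + 1)).smul_mem (MvPolynomial.coeff m Q) h3
  rwa [Algebra.smul_def] at h4

end

theorem no_rel_zero {K F : Type} [Field K] [Field F] [Algebra K F] {r : ℕ} (t : Fin r → F)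
    (d : ℕ) (y : Fin 0 → F) : ¬ RelRN K t d y := by
  rintro ⟨Q, -, h1, h2⟩
  apply h2
  have : (Fin.append (fun i => MvPolynomial.C (t i)) MvPolynomial.X :
        Fin (r + 0) → MvPolynomial (Fin 0) F) =
      algebraMap F (MvPolynomial (Fin 0) F) ∘ Fin.append t y := by
    funext i
    refine Fin.addCases (fun i => ?_) (fun i => i.elim0) i
    rw [Function.comp_apply, Fin.append_left, Fin.append_left]
    rfl
  rw [this, MvPolynomial.aeval_algebraMap_apply, h1, map_zero]

theorem pf_RPO : Pool.Agent.H72.PSV.T_RPO := by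
  intro r n
  induction n with
  | zero =>
    intro d K F _ _ _ t y h
    exact absurd h (no_rel_zero t d y)
  | succ n ih =>
    intro d K F _ _ _ t y h
    by_cases hi : RelRN K t d (Fin.init y : Fin n → F)
    · obtain ⟨p, hp⟩ := ih d K F t (Fin.init y) hi
      refine ⟨p.castSucc, fun ρ c Φ ht hq => ?_⟩
      exact hp ρ c Φ ht fun q hqp => hq q.castSucc (Fin.castSucc_lt_castSucc_iff.2 hqp)
    · refine ⟨Fin.last n, fun ρ c Φ ht hq => ?_⟩
      obtain ⟨Q, hQd, hQ0, hQ1⟩ := h
      have hx : ∀ i, (Fin.append t (Fin.init y : Fin n → F)) i ∈ Φ.G 1 := by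
        intro i
        refine Fin.addCases (fun i => ?_) (fun i => ?_) i
        · rw [Fin.append_left]; exact ht i
        · rw [Fin.append_right]; exact hq i.castSucc (Fin.castSucc_lt_last i)
      have hdeg : ∀ j, ((lastEq K (r + n) Q).coeff j).totalDegree ≤ d := fun j =>
        (totalDegree_lastEq K (r + n) Q j).trans hQd
      obtain ⟨j, hj⟩ : ∃ j, MvPolynomial.aeval
          (Fin.append (fun i => MvPolynomial.C (t i)) MvPolynomial.X :
            Fin (r + n) → MvPolynomial (Fin n) F) ((lastEq K (r + n) Q).coeff j) ≠ 0 := by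
        by_contra hcon
        push Not at hcon
        apply hQ1
        apply (lastEq F n).injective
        rw [map_zero, lastEq_aeval']
        ext1 j
        rw [Polynomial.coeff_map, Polynomial.coeff_zero]
        exact hcon j
      have hjd : j ≤ d := by
        refine (le_of_coeff_ne K (r + n) Q j ?_).trans hQd
        intro h0
        rw [h0, map_zero] at hj
        exact hj rfl
      have ha : MvPolynomial.aeval (Fin.append t (Fin.init y : Fin n → F))
          ((lastEq K (r + n) Q).coeff j) ≠ 0 := by
        intro h0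
        exact hi ⟨_, hdeg j, h0, hj⟩
      refine ⟨fun l => MvPolynomial.aeval (Fin.append t (Fin.init y : Fin n → F))
        ((lastEq K (r + n) Q).coeff l), fun l => aeval_mem_filt Φ _ hx d _ (hdeg l),
        ⟨⟨j, by omega⟩, ha⟩, ?_⟩
      have hsn : (Fin.snoc (Fin.append t (Fin.init y : Fin n → F)) (y (Fin.last n)) :
          Fin (r + n + 1) → F) = Fin.append t y := by
        rw [← Fin.append_snoc, Fin.snoc_init_self]
      have hev := lastEq_eval (r + n) (Fin.append t (Fin.init y : Fin n → F)) (y (Fin.last n)) Q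
      rw [hsn] at hev
      have hev0 : ((lastEq K (r + n) Q).map (MvPolynomial.aeval
          (Fin.append t (Fin.init y : Fin n → F)) :
            MvPolynomial (Fin (r + n)) K →ₐ[K] F).toRingHom).eval (y (Fin.last n)) = 0 := by
        rw [← hev]
        exact hQ0
      rw [Polynomial.eval_eq_sum_range' (n := d + 1), Finset.sum_range] at hev0
      · rw [← hev0]
        refine Finset.sum_congr rfl fun l _ => ?_
        rw [Polynomial.coeff_map]
        rfl
      · refine Nat.lt_succ_of_le (Polynomial.natDegree_le_iff_coeff_eq_zero.2 fun m hm => ?_)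
        rw [Polynomial.coeff_map]
        have h0 : (lastEq K (r + n) Q).coeff m = 0 := by
          by_contra hne
          have := (le_of_coeff_ne K (r + n) Q m hne).trans hQd
          omega
        rw [h0, map_zero]

end Pool.Agent.H48.PSV
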